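import Pool.Agent.Helper20.RG.St1

set_option autoImplicit false

open MeasureTheory Set Filter Topology
open scoped ENNReal RealInnerProductSpace

namespace Pool.Agent.Helper72.RG

open Pool.Agent.Helper20.RG

theorem hU1 (hMB : StMB) (hSC : StSC) (hSUF : StSUF) : StU1 := by
  classical
  obtain ⟨C1, hC1, hMB⟩ := hMB
  intro C₀ hC₀
  obtain ⟨C2, hC2, hSC⟩ := hSC C₀ hC₀
  have hC1p : 0 < C1 := by linarith
  refine ⟨C1 * (4 * C2 + 12 * Real.sqrt C2), by positivity, ?_⟩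
  intro u s c m m' R K A σ hsys ξ ℓ hξ hℓ
  have hN : (0 : ℝ) < 2 ^ u := by positivity
  set f : ℕ → ℝ := fun j => ‖Zh (s j) (c j) (m j) (m' j) ℓ ξ‖ / C1 with hf
  have hmb : ∀ j < 2 ^ u, _ := fun j hj =>
    hMB (s j) (c j) (m j) (m' j) ℓ ξ (hsys.slope j hj) (hsys.mm j hj).1 hℓ
  have hf01 : ∀ j < 2 ^ u, 0 ≤ f j ∧ f j ≤ 1 := by
    intro j hj
    refine ⟨by positivity, ?_⟩
    rw [hf]
    simp only
    rw [div_le_one hC1p]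
    exact (hmb j hj).1
  have hcard : ∀ y : ℝ, 0 < y → y ≤ 1 →
      ({j : ℕ | j < 2 ^ u ∧ y ≤ f j}.ncard : ℝ) ≤ C2 * (1 + (1 / ((2 : ℝ) ^ u * ℓ)) / y ^ 2) := by
    intro y hy hy1
    have h1 := hSC u s c m m' R K A σ hsys ξ y ℓ hξ hy hy1 hℓ
    have hsub : {j : ℕ | j < 2 ^ u ∧ y ≤ f j} ⊆
        {j : ℕ | j < 2 ^ u ∧ y ≤ ‖ξ‖ * (2 : ℝ) ^ (-(m' j : ℤ)) ∧ ℓ * |⟪E (s j), ξ⟫| ≤ 1 / y} := by
      rintro j ⟨hj, hyf⟩
      obtain ⟨-, h2, -, h4, -⟩ := hmb j hj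
      have hyz : y * C1 ≤ ‖Zh (s j) (c j) (m j) (m' j) ℓ ξ‖ := by
        rw [hf] at hyf
        simp only at hyf
        rwa [le_div_iff₀ hC1p] at hyf
      refine ⟨hj, ?_, ?_⟩
      · have h5 : C1 * y ≤ C1 * (‖ξ‖ * (2 : ℝ) ^ (-(m' j : ℤ))) := by linarith
        exact le_of_mul_le_mul_left h5 hC1p
      · have h6 : 0 ≤ ℓ * |⟪E (s j), ξ⟫| := by positivity
        have h7 : y * C1 * (ℓ * |⟪E (s j), ξ⟫|) ≤ C1 :=
          (mul_le_mul_of_nonneg_right hyz h6).trans h4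
        rw [le_div_iff₀ hy]
        have h8 : C1 * (ℓ * |⟪E (s j), ξ⟫| * y) ≤ C1 * 1 := by linarith
        exact le_of_mul_le_mul_left h8 hC1p
    have hfin : {j : ℕ | j < 2 ^ u ∧ y ≤ ‖ξ‖ * (2 : ℝ) ^ (-(m' j : ℤ)) ∧
        ℓ * |⟪E (s j), ξ⟫| ≤ 1 / y}.Finite :=
      (Set.finite_lt_nat (2 ^ u)).subset (fun j hj => hj.1)
    have h3 : ({j : ℕ | j < 2 ^ u ∧ y ≤ f j}.ncard : ℝ) ≤
        ({j : ℕ | j < 2 ^ u ∧ y ≤ ‖ξ‖ * (2 : ℝ) ^ (-(m' j : ℤ)) ∧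
          ℓ * |⟪E (s j), ξ⟫| ≤ 1 / y}.ncard : ℝ) := by
      exact_mod_cast Set.ncard_le_ncard hsub hfin
    refine h3.trans (h1.trans (le_of_eq ?_))
    rw [div_div]
  have hs := hSUF (2 ^ u) f C2 (1 / ((2 : ℝ) ^ u * ℓ)) hC2.le (by positivity) hf01 hcard
  have hsq : Real.sqrt (C2 * (1 / ((2 : ℝ) ^ u * ℓ)) * ((2 ^ u : ℕ) : ℝ)) =
      Real.sqrt C2 * (1 / Real.sqrt ℓ) := by
    have h1 : C2 * (1 / ((2 : ℝ) ^ u * ℓ)) * ((2 ^ u : ℕ) : ℝ) = C2 * (1 / ℓ) := by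
      push_cast
      field_simp
    rw [h1, Real.sqrt_mul hC2.le, Real.sqrt_div zero_le_one, Real.sqrt_one]
  rw [hsq] at hs
  have hsum : ∑ j ∈ Finset.range (2 ^ u), ‖Zh (s j) (c j) (m j) (m' j) ℓ ξ‖ =
      C1 * ∑ j ∈ Finset.range (2 ^ u), f j := by
    rw [Finset.mul_sum]
    apply Finset.sum_congr rfl
    intro j _
    rw [hf]
    simp only
    field_simp
  rw [hsum]
  have ht : 0 ≤ 1 / Real.sqrt ℓ := by positivity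
  have hq : 0 ≤ Real.sqrt C2 := Real.sqrt_nonneg _
  calc C1 * ∑ j ∈ Finset.range (2 ^ u), f j
      ≤ C1 * (4 * C2 + 12 * (Real.sqrt C2 * (1 / Real.sqrt ℓ))) :=
        mul_le_mul_of_nonneg_left hs hC1p.le
    _ ≤ C1 * ((4 * C2 + 12 * Real.sqrt C2) * (1 + 1 / Real.sqrt ℓ)) := by
        apply mul_le_mul_of_nonneg_left _ hC1p.le
        nlinarith [mul_nonneg hC2.le ht, mul_nonneg hq ht]
    _ = C1 * (4 * C2 + 12 * Real.sqrt C2) * (1 + 1 / Real.sqrt ℓ) := by ring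

end Pool.Agent.Helper72.RG
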